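import Pool.Agent.H75.GS.Targets
import Pool.Agent.H59.NB.BBV

/-!
# Quantum heuristics (MP_0f8dca_lc), row BBH: the hybrid argument
-/

set_option autoImplicit false

namespace Pool.Agent.H87.GS

open Finset Pool.Agent.H6.NB Pool.Agent.H70.OQ Pool.Agent.H75.GS Pool.Agent.H59.NB.BBV

private theorem ic_nonneg (p : Prop) : 0 ≤ ic p := by
  unfold ic
  split_ifs
  · exact zero_le_one
  · exact le_refl _

private theorem ic_le (p : Prop) : ic p ≤ 1 := by
  unfold ic
  split_ifs
  · exact le_refl _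
  · exact zero_le_one

private theorem ic_true {p : Prop} (h : p) : ic p = 1 := by
  unfold ic
  rw [if_pos h]

private theorem dw_le (Q : QAlg) (O O' : List Bool → Bool) (v : Q.basis → ℂ) :
    dw Q O O' v ≤ ∑ z, ic (∃ w, Q.query z = some w ∧ O' w ≠ O w) * ‖v z‖ ^ 2 := by
  unfold dw
  refine Finset.sum_le_sum fun z _ => ?_
  by_cases h : Q.phase O' z ≠ Q.phase O z
  · rw [if_pos h, ic_true (phase_ne Q O O' z h), one_mul]
  · rw [if_neg h]
    exact mul_nonneg (ic_nonneg _) (by positivity)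

/-- (BBH) the hybrid argument. -/
theorem pf_BBH : T_BBH := by
  intro Q O O'
  have h0 : 0 ≤ mg Q O O' := by
    unfold mg
    exact Finset.sum_nonneg fun t _ => Finset.sum_nonneg fun z _ =>
      mul_nonneg (ic_nonneg _) (by positivity)
  have h1 : mg Q O O' ≤ Q.T := by
    unfold mg
    have h2 : ∀ t ∈ range Q.T, ∑ z, ic (∃ w, Q.query z = some w ∧ O' w ≠ O w) *
        ‖Q.state O t z‖ ^ 2 ≤ 1 := by
      intro t _
      calc ∑ z, ic (∃ w, Q.query z = some w ∧ O' w ≠ O w) * ‖Q.state O t z‖ ^ 2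
          ≤ ∑ z, ‖Q.state O t z‖ ^ 2 := by
            refine Finset.sum_le_sum fun z _ => ?_
            exact mul_le_of_le_one_left (by positivity) (ic_le _)
        _ = ‖ev (Q.state O t)‖ ^ 2 := (norm_ev_sq _).symm
        _ = 1 := by rw [norm_state, one_pow]
    refine (Finset.sum_le_sum h2).trans (le_of_eq ?_)
    rw [Finset.sum_const, Finset.card_range, nsmul_eq_mul, mul_one]
  have hT : (0 : ℝ) ≤ Q.T := Nat.cast_nonneg _
  have hd : dst Q O O' = ‖ev (Q.state O' Q.T - Q.state O Q.T)‖ ^ 2 := by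
    unfold dst
    rw [norm_ev_sq]
    rfl
  have h3 : dst Q O O' ≤ 4 * Q.T * mg Q O O' := by
    rw [hd]
    refine (norm_state_sub_sq Q O O' Q.T).trans ?_
    refine mul_le_mul_of_nonneg_left ?_ (by positivity)
    unfold mg
    exact Finset.sum_le_sum fun t _ => dw_le Q O O' _
  refine ⟨h0, h1, h3, ?_⟩
  refine (abs_prob_sub Q O O').trans ?_
  have h4 : ‖ev (Q.state O' Q.T - Q.state O Q.T)‖ ≤ 2 * √(Q.T * mg Q O O') := by
    refine abs_le_of_sq_le_sq' ?_ (by positivity) |>.2
    rw [mul_pow, Real.sq_sqrt (by positivity), ← hd]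
    linarith
  linarith

end Pool.Agent.H87.GS
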