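import Mathlib

/-!
# The deterministic lemma with a threshold: two anchors with many common neighbours
-/

set_option autoImplicit false

namespace Pool.Agent.H87.GS

open Finset

open Classical in
/-- Two elements with many common neighbours in a dense weighted graph. -/
lemma anchors {ι : Type*} (E : Finset ι) (wt : ι → ℝ) (hw : ∀ e, 0 ≤ wt e) (Rel : ι → ι → Prop)
    (same : ι → ι → Prop) (κ μ : ℝ) (hκ : 0 < κ) (hμ : μ = ∑ e ∈ E, wt e)
    (hrel : κ * μ ^ 2 ≤ ∑ e ∈ E, wt e * ∑ d ∈ E.filter (fun d => Rel e d), wt d)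
    (hsame : ∀ a ∈ E, ∑ a' ∈ E.filter (fun a' => same a a'), wt a' ≤ 1)
    (hbig : 2 < κ ^ 2 * μ) :
    ∃ a ∈ E, ∃ a' ∈ E, ¬ same a a' ∧
      κ ^ 2 * μ / 2 ≤ ∑ e ∈ E.filter (fun e => Rel e a ∧ Rel e a'), wt e := by
  by_contra hcon
  push Not at hcon
  have hμ0 : 0 < μ := by
    by_contra h
    have : κ ^ 2 * μ ≤ 0 := mul_nonpos_of_nonneg_of_nonpos (by positivity) (not_lt.1 h)
    linarith
  set deg : ι → ℝ := fun e => ∑ d ∈ E.filter (fun d => Rel e d), wt d with hdeg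
  -- lower bound
  have h1 : κ ^ 2 * μ ^ 3 ≤ ∑ e ∈ E, wt e * deg e ^ 2 := by
    have h2 : 0 ≤ ∑ e ∈ E, wt e * (deg e - κ * μ) ^ 2 :=
      Finset.sum_nonneg fun e _ => mul_nonneg (hw e) (sq_nonneg _)
    have h3 : ∑ e ∈ E, wt e * (deg e - κ * μ) ^ 2 =
        ∑ e ∈ E, wt e * deg e ^ 2 - 2 * (κ * μ) * ∑ e ∈ E, wt e * deg e +
          (κ * μ) ^ 2 * ∑ e ∈ E, wt e := by
      rw [Finset.mul_sum, Finset.mul_sum, ← Finset.sum_sub_distrib, ← Finset.sum_add_distrib]
      exact Finset.sum_congr rfl fun e _ => by ring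
    rw [h3, ← hμ] at h2
    have h4 : 2 * (κ * μ) * (κ * μ ^ 2) ≤ 2 * (κ * μ) * ∑ e ∈ E, wt e * deg e :=
      mul_le_mul_of_nonneg_left hrel (by positivity)
    nlinarith
  -- the sum over the pairs
  have h2 : ∑ e ∈ E, wt e * deg e ^ 2 = ∑ a ∈ E, ∑ a' ∈ E, wt a * wt a' *
      ∑ e ∈ E.filter (fun e => Rel e a ∧ Rel e a'), wt e := by
    have h3 : ∀ e ∈ E, wt e * deg e ^ 2 = ∑ a ∈ E, ∑ a' ∈ E,
        (if Rel e a ∧ Rel e a' then wt a * wt a' * wt e else 0) := by
      intro e _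
      simp only [hdeg]
      rw [Finset.sum_filter, sq, Finset.sum_mul_sum, Finset.mul_sum]
      refine Finset.sum_congr rfl fun a _ => ?_
      rw [Finset.mul_sum]
      refine Finset.sum_congr rfl fun a' _ => ?_
      by_cases c1 : Rel e a
      · by_cases c2 : Rel e a'
        · simp [c1, c2]; ring
        · simp [c2]
      · simp [c1]
    rw [Finset.sum_congr rfl h3, Finset.sum_comm]
    refine Finset.sum_congr rfl fun a _ => ?_
    rw [Finset.sum_comm]
    refine Finset.sum_congr rfl fun a' _ => ?_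
    rw [Finset.sum_filter, Finset.mul_sum]
    refine Finset.sum_congr rfl fun e _ => ?_
    split_ifs <;> simp
  have h3 : ∑ a ∈ E, ∑ a' ∈ E, wt a * wt a' *
      ∑ e ∈ E.filter (fun e => Rel e a ∧ Rel e a'), wt e ≤
      ∑ a ∈ E, ∑ a' ∈ E, (wt a * wt a' * (κ ^ 2 * μ / 2) +
        (if same a a' then wt a * wt a' * μ else 0)) := by
    refine Finset.sum_le_sum fun a ha => Finset.sum_le_sum fun a' ha' => ?_
    have hww : 0 ≤ wt a * wt a' := mul_nonneg (hw a) (hw a')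
    by_cases c : same a a'
    · rw [if_pos c]
      have h4 : ∑ e ∈ E.filter (fun e => Rel e a ∧ Rel e a'), wt e ≤ μ := by
        rw [hμ]
        exact Finset.sum_le_sum_of_subset_of_nonneg (Finset.filter_subset _ _) fun e _ _ => hw e
      have h5 := mul_le_mul_of_nonneg_left h4 hww
      have h6 : 0 ≤ wt a * wt a' * (κ ^ 2 * μ / 2) := by positivity
      linarith
    · rw [if_neg c, add_zero]
      exact mul_le_mul_of_nonneg_left (hcon a ha a' ha' c).le hww
  have h4 : ∑ a ∈ E, ∑ a' ∈ E, (wt a * wt a' * (κ ^ 2 * μ / 2) +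
        (if same a a' then wt a * wt a' * μ else 0)) ≤ μ * μ * (κ ^ 2 * μ / 2) + μ * μ := by
    have h5 : ∀ a ∈ E, ∑ a' ∈ E, (wt a * wt a' * (κ ^ 2 * μ / 2) +
        (if same a a' then wt a * wt a' * μ else 0)) =
        wt a * (μ * (κ ^ 2 * μ / 2) + (∑ a' ∈ E.filter (fun a' => same a a'), wt a') * μ) := by
      intro a _
      rw [Finset.sum_add_distrib, Finset.sum_filter, mul_add]
      congr 1
      · rw [← Finset.sum_mul, ← Finset.mul_sum, ← hμ]
        ring
      · rw [Finset.sum_mul, Finset.mul_sum]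
        refine Finset.sum_congr rfl fun a' _ => ?_
        split_ifs <;> ring
    rw [Finset.sum_congr rfl h5]
    calc ∑ a ∈ E, wt a * (μ * (κ ^ 2 * μ / 2) +
          (∑ a' ∈ E.filter (fun a' => same a a'), wt a') * μ)
        ≤ ∑ a ∈ E, wt a * (μ * (κ ^ 2 * μ / 2) + 1 * μ) := by
          refine Finset.sum_le_sum fun a ha => mul_le_mul_of_nonneg_left ?_ (hw a)
          have := mul_le_mul_of_nonneg_right (hsame a ha) hμ0.le
          linarith
      _ = μ * μ * (κ ^ 2 * μ / 2) + μ * μ := by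
          rw [← Finset.sum_mul, ← hμ]
          ring
  have h5 : κ ^ 2 * μ ^ 3 ≤ μ * μ * (κ ^ 2 * μ / 2) + μ * μ := by
    rw [h2] at h1
    exact h1.trans (h3.trans h4)
  have h6 : (κ ^ 2 * μ) * μ ^ 2 ≤ 2 * μ ^ 2 := by nlinarith
  have h7 : κ ^ 2 * μ ≤ 2 := le_of_mul_le_mul_right h6 (by positivity)
  linarith

end Pool.Agent.H87.GS
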