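import Pool.Agent.H87.GS.Second
import Pool.Agent.H87.GS.Anchors

/-!
# The deterministic lemma with a threshold: the bound
-/

set_option autoImplicit false

namespace Pool.Agent.H87.GS

open Finset Pool.Agent.H6.N4D Pool.Agent.H87.ES

/-- from `nd` to fractions -/
lemma nearA {q q' N : ℕ} (hq : 0 < q) (hq' : 0 < q') (hc : Nat.Coprime q q')
    (x A : ℝ) (h : nd (((q * q' : ℕ) : ℝ) * x) < A * ((q * q' : ℕ) : ℝ) / N) :
    ∃ u v : ℤ, |x - u / q - v / q'| < A / N := by
  obtain ⟨b, hb⟩ := exists_int (((q * q' : ℕ) : ℝ) * x)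
  obtain ⟨u, v, huv⟩ := split_frac hq hq' hc b
  refine ⟨u, v, ?_⟩
  have h0 : (0 : ℝ) < q := by exact_mod_cast hq
  have h0' : (0 : ℝ) < q' := by exact_mod_cast hq'
  rw [sub_sub, ← huv]
  rw [← hb] at h
  push_cast at h
  have h1 : (q : ℝ) * q' * x - b = q * q' * (x - b / (q * q')) := by
    field_simp
  rw [h1, abs_mul, abs_of_pos (by positivity : (0 : ℝ) < q * q')] at h
  have h2 : A * ((q : ℝ) * q') / N = q * q' * (A / N) := by ring
  rw [h2] at h
  exact lt_of_mul_lt_mul_left h (by positivity)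

/-- A small change of the frequency, and a multiple of `1 / q`. -/
lemma shiftA (f : ℕ → ℝ) (hf : ∀ t, |f t| ≤ 1) (N q r : ℕ) (hq : 1 ≤ q) (hN : 100 * q ≤ N)
    (α β η : ℝ) (hη : 0 ≤ η) (b : ℤ) (h : |β - α - b / q| ≤ η / N) :
    ‖A1 (FF f β) N q r‖ ≤ ‖A1 (FF f α) N q r‖ + 7 * η := by
  have hq0 : (0 : ℝ) < q := by exact_mod_cast hq
  have hN0 : (0 : ℝ) < N := by
    have : 0 < N := by omega
    exact_mod_cast this
  set θ : ℝ := β - α - b / q with hθ
  have h1 : ∀ t ∈ (range N).filter (fun t => q ∣ r + t),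
      FF f β t = ee (b * r / q) * (FF f α t * ee (-(θ * t))) := by
    intro t ht
    obtain ⟨k, hk⟩ := (mem_filter.1 ht).2
    unfold FF
    have h2 : ee (-(β * t)) = ee (b * r / q) * (ee (-(α * t)) * ee (-(θ * t))) := by
      rw [← ee_add, ← ee_add]
      have h3 : -(β * t) = (b * r / q + (-(α * t) + -(θ * t))) + ((-(b * k) : ℤ) : ℝ) := by
        have h4 : ((r : ℝ) + t) = q * k := by exact_mod_cast hk
        rw [hθ]
        push_cast
        field_simp
        linear_combination (-(b : ℝ)) * h4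
      rw [h3, ee_add _ (((-(b * k) : ℤ) : ℝ)), ee_int, mul_one]
    rw [h2]
    ring
  have h2 : A1 (FF f β) N q r = ee (b * r / q) * (A1 (FF f α) N q r +
      ((q : ℂ) / N) * ∑ t ∈ (range N).filter (fun t => q ∣ r + t),
        FF f α t * (ee (-(θ * t)) - 1)) := by
    unfold A1
    rw [Finset.sum_congr rfl h1, ← Finset.mul_sum]
    have h3 : ∑ t ∈ (range N).filter (fun t => q ∣ r + t), FF f α t * ee (-(θ * t)) =
        ∑ t ∈ (range N).filter (fun t => q ∣ r + t), FF f α t +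
        ∑ t ∈ (range N).filter (fun t => q ∣ r + t), FF f α t * (ee (-(θ * t)) - 1) := by
      rw [← Finset.sum_add_distrib]
      exact Finset.sum_congr rfl fun t _ => by ring
    rw [h3]
    ring
  rw [h2, norm_mul, norm_ee, one_mul]
  refine (norm_add_le _ _).trans ?_
  gcongr
  rw [norm_mul, norm_div, Complex.norm_natCast, Complex.norm_natCast]
  have h3 : ‖∑ t ∈ (range N).filter (fun t => q ∣ r + t), FF f α t * (ee (-(θ * t)) - 1)‖ ≤
      ((N : ℝ) / q + 1) * (2 * Real.pi * η) := by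
    calc _ ≤ ∑ t ∈ (range N).filter (fun t => q ∣ r + t), (2 * Real.pi * η) := by
          refine norm_sum_le_of_le _ fun t ht => ?_
          rw [norm_mul]
          have h4 := norm_ee_sub_one_le (-(θ * t))
          have h5 : |(-(θ * t))| ≤ η := by
            rw [abs_neg, abs_mul, Nat.abs_cast]
            have h6 : (t : ℝ) ≤ N := by
              have := (mem_range.1 (mem_filter.1 ht).1).le
              exact_mod_cast this
            calc |θ| * t ≤ η / N * N := by gcongr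
              _ = η := by field_simp
          calc ‖FF f α t‖ * ‖ee (-(θ * t)) - 1‖ ≤ 1 * (2 * Real.pi * η) := by
                refine mul_le_mul (norm_FF hf α t) (h4.trans ?_) (norm_nonneg _) zero_le_one
                exact mul_le_mul_of_nonneg_left h5 (by positivity)
            _ = 2 * Real.pi * η := by ring
      _ = (((range N).filter (fun t => q ∣ r + t)).card : ℝ) * (2 * Real.pi * η) := by
          rw [Finset.sum_const, nsmul_eq_mul]
      _ ≤ ((N : ℝ) / q + 1) * (2 * Real.pi * η) := by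
          have h7 : (((range N).filter (fun t => q ∣ r + t)).card : ℝ) ≤ (N : ℝ) / q + 1 := by
            have h8 := card_class N q r hq
            calc (((range N).filter (fun t => q ∣ r + t)).card : ℝ) ≤ ((N / q + 1 : ℕ) : ℝ) := by
                  exact_mod_cast h8
              _ ≤ (N : ℝ) / q + 1 := by
                  push_cast
                  gcongr
                  exact Nat.cast_div_le
          exact mul_le_mul_of_nonneg_right h7 (by positivity)
  have hpi := Real.pi_lt_d2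
  have hpi0 := Real.pi_pos
  calc (q : ℝ) / N * ‖∑ t ∈ (range N).filter (fun t => q ∣ r + t), FF f α t * (ee (-(θ * t)) - 1)‖
      ≤ (q : ℝ) / N * (((N : ℝ) / q + 1) * (2 * Real.pi * η)) :=
        mul_le_mul_of_nonneg_left h3 (by positivity)
    _ = (1 + q / N) * (2 * Real.pi * η) := by field_simp
    _ ≤ (1 + 1 / 100) * (2 * Real.pi * η) := by
        have h9 : (q : ℝ) / N ≤ 1 / 100 := by
          rw [div_le_div_iff₀ hN0 (by norm_num)]
          have : ((100 * q : ℕ) : ℝ) ≤ N := by exact_mod_cast hN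
          push_cast at this
          linarith
        exact mul_le_mul_of_nonneg_right (by linarith) (by positivity)
    _ ≤ 7 * η := by nlinarith

lemma mul4_le {a b c d B : ℝ} (ha : 0 ≤ a) (hb : 0 ≤ b) (hc : 0 ≤ c) (hd : 0 ≤ d) (h1 : a ≤ B)
    (h2 : b ≤ B) (h3 : c ≤ B) (h4 : d ≤ B) : a * b * (c * d) ≤ B ^ 4 := by
  have hB : 0 ≤ B := ha.trans h1
  calc a * b * (c * d) ≤ B * B * (B * B) := by gcongr
    _ = B ^ 4 := by ring

open Classical in
/-- The mass of the classes with a large correlation at a far frequency is bounded. -/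
theorem det_main (τ : ℝ) (hτ : 0 < τ) (hτ1 : τ ≤ 1) : ∃ M : ℝ, 0 < M ∧
    ∀ (N : ℕ) (P : Finset ℕ) (_ : ∀ p ∈ P, p.Prime) (B : ℝ)
    (_ : ∀ p ∈ P, (p : ℝ) ≤ B) (_ : (100 + 16 / τ ^ 2) * B ^ 4 ≤ N) (f : ℕ → ℝ)
    (_ : ∀ t, |f t| ≤ 1)
    (k : ℕ) (S : Fin k → ℝ) (c₀ c₁ : ℝ) (_ : c₀ + 1 / 100 < c₁)
    (_ : ∀ α : ℝ, 68 / 100 * τ ≤ ‖A1 (FF f α) N 1 0‖ → ∃ i, nd (α - S i) ≤ c₀ / N),
    ∑ q ∈ P, (((range q).filter (fun r => ∃ β : ℝ, (∀ (i : Fin k) (b : ℤ),
      c₁ / N ≤ nd (β - S i - (b : ℝ) / q)) ∧ τ ≤ ‖A1 (FF f β) N q r‖)).card : ℝ) / q ≤ M := by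
  set A : ℝ := 4 / τ ^ 2 with hA
  set η : ℝ := τ / 100 with hη
  have hA0 : 0 < A := by positivity
  have hη0 : 0 < η := by positivity
  set κ : ℝ := τ ^ 2 / 4 with hκ
  have hκ0 : 0 < κ := by positivity
  set Kc : ℕ := ⌈2 * A / η⌉₊ + 1 with hKc
  set m0 : ℝ := 1 + 53 / (τ / 4) ^ 2 with hm0
  have hm00 : 0 < m0 := by positivity
  set M : ℝ := 2 * (Kc * m0 + 1) / κ ^ 2 + 16 / τ ^ 2 + 3 / κ ^ 2 with hM
  have hMa : 0 < 2 * (Kc * m0 + 1) / κ ^ 2 := by positivity
  have hMb : 0 < 16 / τ ^ 2 := by positivity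
  have hMc : 0 < 3 / κ ^ 2 := by positivity
  refine ⟨M, by positivity, ?_⟩
  intro N P hP B hB hN f hf k S c₀ c₁ hc hcov
  rcases P.eq_empty_or_nonempty with rfl | ⟨q0, hq0⟩
  · simp only [Finset.sum_empty]; positivity
  have hB2 : 2 ≤ B := le_trans (by exact_mod_cast (hP q0 hq0).two_le) (hB q0 hq0)
  have hB0 : 0 < B := by linarith
  have hB40 : 0 < B ^ 4 := by positivity
  have hN100 : 100 * B ^ 4 ≤ N := by
    have : 0 ≤ 16 / τ ^ 2 * B ^ 4 := by positivity
    nlinarith
  have hN16 : 4 * A * B ^ 4 ≤ N := by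
    have h1 : 4 * A * B ^ 4 = 16 / τ ^ 2 * B ^ 4 := by
      rw [hA]; ring
    rw [h1]
    nlinarith
  have hN1 : (1600 : ℝ) ≤ N := by
    refine le_trans ?_ hN100
    nlinarith [pow_le_pow_left₀ (by norm_num : (0 : ℝ) ≤ 2) hB2 4]
  have hN0 : (0 : ℝ) < N := by linarith
  have hN0' : 0 < N := by exact_mod_cast hN0
  have hsize : ∀ q ∈ P, 1 ≤ q ∧ 100 * q ≤ N ∧ ((q : ℝ) * B ^ 2 ≤ N) ∧ q ≤ N := by
    intro q hq
    have h1 : (1 : ℝ) ≤ q := by exact_mod_cast (hP q hq).pos
    have h2 := hB q hq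
    have hB3 : B ≤ B ^ 4 := by
      calc B = B * 1 := by ring
        _ ≤ B * B ^ 3 := by
          have : (1 : ℝ) ≤ B ^ 3 := one_le_pow₀ (by linarith)
          gcongr
        _ = B ^ 4 := by ring
    have hB4 : B * B ^ 2 ≤ B ^ 4 := by
      calc B * B ^ 2 = B ^ 3 * 1 := by ring
        _ ≤ B ^ 3 * B := by gcongr; linarith
        _ = B ^ 4 := by ring
    have h3 : (100 : ℝ) * q ≤ N := by linarith
    have h3' : 100 * q ≤ N := by exact_mod_cast h3
    refine ⟨(hP q hq).pos, h3', ?_, by omega⟩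
    have : (q : ℝ) * B ^ 2 ≤ B * B ^ 2 := by gcongr
    linarith
  have hB2N : ((1 : ℕ) : ℝ) * B ^ 2 ≤ N := by
    have h4 := (hsize q0 hq0).2.2.1
    have h5 : (1 : ℝ) ≤ q0 := by exact_mod_cast (hP q0 hq0).pos
    have h6 : (0 : ℝ) ≤ B ^ 2 := sq_nonneg B
    push_cast
    nlinarith
  by_contra hlt
  push Not at hlt
  set bad : ℕ → ℕ → Prop := fun q r => ∃ β : ℝ, (∀ (i : Fin k) (b : ℤ),
      c₁ / N ≤ nd (β - S i - (b : ℝ) / q)) ∧ τ ≤ ‖A1 (FF f β) N q r‖ with hbad
  set E : Finset ((_ : ℕ) × ℕ) := (P.sigma (fun q => range q)).filter (fun e => bad e.1 e.2)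
    with hE
  have hEP : E ⊆ P.sigma (fun q => range q) := Finset.filter_subset _ _
  have hmu : M < ∑ e ∈ E, 1 / (e.1 : ℝ) := by
    refine lt_of_lt_of_eq hlt ?_
    rw [hE, Finset.sum_filter, Finset.sum_sigma]
    refine Finset.sum_congr rfl fun q _ => ?_
    change _ = ∑ r ∈ range q, if bad q r then 1 / (q : ℝ) else 0
    rw [← Finset.sum_filter, Finset.sum_const, nsmul_eq_mul, mul_one_div]
  have hEp : ∀ e ∈ E, e.1 ∈ P := fun e he => (mem_sigma.1 (hEP he)).1
  have hEprime : ∀ e ∈ E, e.1.Prime := fun e he => hP _ (hEp e he)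
  have hEbad : ∀ e ∈ E, bad e.1 e.2 := fun e he => (mem_filter.1 he).2
  choose! β hβ1 hβ2 using hEbad
  clear_value E
  set μ : ℝ := ∑ e ∈ E, 1 / (e.1 : ℝ) with hμ
  have hμ0 : 0 < μ := by
    have : 0 < M := by positivity
    linarith
  have hw : ∀ e : (_ : ℕ) × ℕ, (0 : ℝ) ≤ 1 / (e.1 : ℝ) := fun e => by positivity
  -- the related pairs
  have hsec := second N P hP hB (by push_cast at hB2N; linarith) hN0' f hf τ hτ E hEP β hβ2 μ hμ
    (by linarith)
  obtain ⟨a, haE, a', ha'E, haa', hE3m⟩ := anchors E (fun e => 1 / (e.1 : ℝ)) hw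
    (fun e d => Rl N A β e d) (fun a a' => a'.1 = a.1) κ μ hκ0 hμ hsec (by
      intro a ha
      have h1 := one_q P a.1 (hEprime a ha).pos (E.filter (fun e => e.1 = a.1))
        ((Finset.filter_subset _ _).trans hEP) fun e he => (mem_filter.1 he).2
      refine le_trans (le_of_eq ?_) h1
      congr!) (by
      have h1 : 3 / κ ^ 2 < μ := by linarith
      rw [div_lt_iff₀ (by positivity)] at h1
      linarith)
  have haa'2 : a.1 ≠ a'.1 := fun h => haa' h.symm
  set E3 := E.filter (fun e => Rl N A β e a ∧ Rl N A β e a') with hE3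
  have hE3E : ∀ e ∈ E3, e ∈ E := fun e he => (mem_filter.1 he).1
  have hmu3 : Kc * m0 < ∑ e ∈ E3, 1 / (e.1 : ℝ) := by
    have h1 : 2 * (Kc * m0 + 1) / κ ^ 2 < μ := by linarith
    rw [div_lt_iff₀ (by positivity)] at h1
    linarith
  have hgood : ∀ e ∈ E, ∀ d ∈ E, Rl N A β e d → ∃ u v : ℤ,
      |β e - β d - u / e.1 - v / d.1| < A / N := by
    intro e he d hd h
    exact nearA (hEprime e he).pos (hEprime d hd).pos
      ((Nat.coprime_primes (hEprime e he) (hEprime d hd)).2 h.1) (β e - β d) A h.2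
  have hg1 : ∀ e ∈ E3, ∃ u v : ℤ, |β e - β a - u / e.1 - v / a.1| < A / N := fun e he =>
    hgood e (hE3E e he) a haE (mem_filter.1 he).2.1
  have hg2 : ∀ e ∈ E3, ∃ u v : ℤ, |β e - β a' - u / e.1 - v / a'.1| < A / N := fun e he =>
    hgood e (hE3E e he) a' ha'E (mem_filter.1 he).2.2
  choose! u1 v1 h1 using hg1
  choose! u2 v2 h2 using hg2
  -- the labels
  set θ : (_ : ℕ) × ℕ → ℝ := fun e => β e - β a - u1 e / e.1 - v1 e / a.1 with hθ
  set cell : (_ : ℕ) × ℕ → ℕ := fun e => ⌊(θ e * N + A) / η⌋₊ with hcell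
  have hθb : ∀ e ∈ E3, 0 ≤ (θ e * N + A) / η ∧ (θ e * N + A) / η < 2 * A / η := by
    intro e he
    have h3 := h1 e he
    have h4 : |θ e * N| < A := by
      rw [abs_mul, Nat.abs_cast]
      rwa [lt_div_iff₀ hN0] at h3
    rw [abs_lt] at h4
    constructor
    · apply div_nonneg _ hη0.le
      linarith
    · rw [div_lt_div_iff_of_pos_right hη0]
      linarith
  have hmaps : ∀ e ∈ E3, cell e ∈ range Kc := by
    intro e he
    have h3 := hθb e he
    rw [mem_range, hcell]
    simp only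
    rw [Nat.floor_lt h3.1, hKc]
    push_cast
    have := Nat.le_ceil (2 * A / η)
    linarith [h3.2]
  obtain ⟨j, -, hfib⟩ := Finset.exists_lt_sum_fiber_of_maps_to_of_nsmul_lt_sum
    (w := fun e : (_ : ℕ) × ℕ => 1 / (e.1 : ℝ)) (b := m0) hmaps (by
      rw [card_range, nsmul_eq_mul]
      exact hmu3)
  set T := E3.filter (fun e => cell e = j) with hT
  have hTE3 : ∀ e ∈ T, e ∈ E3 := fun e he => (mem_filter.1 he).1
  obtain ⟨o, ho⟩ : T.Nonempty := by
    by_contra h
    rw [Finset.not_nonempty_iff_eq_empty] at h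
    rw [h, Finset.sum_empty] at hfib
    linarith
  set T' := T.filter (fun e => ¬ e.1 = o.1) with hT'
  have hT'm : 53 / (τ / 4) ^ 2 < ∑ e ∈ T', 1 / (e.1 : ℝ) := by
    have h3 : ∑ e ∈ T.filter (fun e => e.1 = o.1), 1 / (e.1 : ℝ) + ∑ e ∈ T', 1 / (e.1 : ℝ) =
        ∑ e ∈ T, 1 / (e.1 : ℝ) := by
      rw [hT', Finset.sum_filter_add_sum_filter_not]
    have h4 : ∑ e ∈ T.filter (fun e => e.1 = o.1), 1 / (e.1 : ℝ) ≤ 1 := by
      refine one_q P o.1 (hEprime o (hE3E o (hTE3 o ho))).pos _ ?_ fun e he => (mem_filter.1 he).2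
      intro e he
      exact hEP (hE3E e (hTE3 e (mem_filter.1 he).1))
    linarith
  -- the common frequency
  set α : ℝ := β a + v1 o / a.1 + θ o with hα
  have hcomm : ∀ e ∈ T', ∃ b : ℤ, |β e - α - b / e.1| ≤ η / N := by
    intro e he
    have heT := (mem_filter.1 he).1
    have heo : e.1 ≠ o.1 := (mem_filter.1 he).2
    have heE3 := hTE3 e heT
    have hoE3 := hTE3 o ho
    have k1 := h1 e heE3
    have k2 := h2 e heE3
    have k3 := h1 o hoE3
    have k4 := h2 o hoE3
    have hdv : (a.1 : ℤ) ∣ (v1 o - v1 e) := by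
      refine four_frac (hEprime e (hE3E e heE3)) (hEprime o (hE3E o hoE3)) (hEprime a haE)
        (hEprime a' ha'E) ?_ ?_ haa'2 (a := u2 e - u1 e) (b := u1 o - u2 o) (c := v1 o - v1 e)
        (d := v2 e - v2 o) (δ := 4 * A / N) ?_ ?_
      · intro h
        exact (mem_filter.1 heE3).2.1.1 h.symm
      · intro h
        exact (mem_filter.1 hoE3).2.1.1 h.symm
      · have e1 : ((u2 e - u1 e : ℤ) : ℝ) / e.1 + ((u1 o - u2 o : ℤ) : ℝ) / o.1 +
            ((v1 o - v1 e : ℤ) : ℝ) / a.1 + ((v2 e - v2 o : ℤ) : ℝ) / a'.1 =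
            (β e - β a - u1 e / e.1 - v1 e / a.1) -
            (β e - β a' - u2 e / e.1 - v2 e / a'.1) -
            (β o - β a - u1 o / o.1 - v1 o / a.1) +
            (β o - β a' - u2 o / o.1 - v2 o / a'.1) := by
          push_cast
          ring
        rw [e1]
        have e2 : 4 * A / N = A / N + A / N + A / N + A / N := by ring
        rw [e2]
        rw [abs_lt] at k1 k2 k3 k4 ⊢
        constructor <;> linarith
      · have g1 := hB e.1 (hEp e (hE3E e heE3))
        have g2 := hB o.1 (hEp o (hE3E o hoE3))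
        have g3 := hB a.1 (hEp a haE)
        have g4 := hB a'.1 (hEp a' ha'E)
        rw [div_mul_eq_mul_div, div_le_one hN0]
        have g5 : (e.1 : ℝ) * o.1 * (a.1 * a'.1) ≤ B ^ 4 :=
          mul4_le (Nat.cast_nonneg _) (Nat.cast_nonneg _) (Nat.cast_nonneg _) (Nat.cast_nonneg _)
            g1 g2 g3 g4
        calc 4 * A * ((e.1 : ℝ) * o.1 * (a.1 * a'.1)) ≤ 4 * A * B ^ 4 := by gcongr
          _ ≤ N := hN16
    obtain ⟨k, hk⟩ := hdv
    refine ⟨u1 e - k * e.1, ?_⟩
    have hk' : (v1 o : ℝ) - v1 e = a.1 * k := by exact_mod_cast hk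
    have ha0 : (a.1 : ℝ) ≠ 0 := by exact_mod_cast (hEprime a haE).pos.ne'
    have he0 : (e.1 : ℝ) ≠ 0 := by exact_mod_cast (hEprime e (hE3E e heE3)).pos.ne'
    have e3 : β e - α - ((u1 e - k * e.1 : ℤ) : ℝ) / e.1 = θ e - θ o := by
      rw [hα, hθ]
      simp only
      have e4 : (v1 o : ℝ) / a.1 = v1 e / a.1 + k := by
        field_simp
        linarith
      rw [e4]
      push_cast
      field_simp
      ring
    rw [e3]
    have e5 : |(θ e * N + A) / η - (θ o * N + A) / η| < 1 := by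
      have c1 : ⌊(θ e * N + A) / η⌋₊ = ⌊(θ o * N + A) / η⌋₊ := by
        have c2 := (mem_filter.1 heT).2
        have c3 := (mem_filter.1 ho).2
        rw [hcell] at c2 c3
        exact c2.trans c3.symm
      have d1 := Nat.floor_le (hθb e heE3).1
      have d2 := Nat.lt_floor_add_one ((θ e * N + A) / η)
      have d3 := Nat.floor_le (hθb o hoE3).1
      have d4 := Nat.lt_floor_add_one ((θ o * N + A) / η)
      rw [c1] at d1 d2
      rw [abs_lt]
      constructor <;> linarith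
    have e6 : (θ e * N + A) / η - (θ o * N + A) / η = (θ e - θ o) * (N / η) := by
      field_simp
      ring
    rw [e6, abs_mul, abs_of_pos (by positivity : (0 : ℝ) < N / η)] at e5
    have e7 : |θ e - θ o| * (N / η) * (η / N) ≤ 1 * (η / N) :=
      mul_le_mul_of_nonneg_right e5.le (by positivity)
    have e8 : |θ e - θ o| * (N / η) * (η / N) = |θ e - θ o| := by
      field_simp
    rw [e8, one_mul] at e7
    exact e7
  -- one element for which the mean over the window is large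
  have hT'P : T' ⊆ P.sigma (fun q => range q) := by
    intro e he
    exact hEP (hE3E e (hTE3 e (mem_filter.1 he).1))
  have hex : ∃ e ∈ T', ‖A2 (FF f α) N 1 0 e.1 e.2 - A1 (FF f α) N 1 0‖ < τ / 4 := by
    by_contra h
    push Not at h
    have h3 := markov (FF f α) (norm_FF hf α) N 1 0 le_rfl P hP hB hB2N hN0' (τ / 4)
      (by positivity) T' hT'P (fun e he hd => by
        have h4 := hEprime e (hE3E e (hTE3 e (mem_filter.1 he).1))
        exact h4.one_lt.ne' (Nat.dvd_one.1 hd)) h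
    linarith
  obtain ⟨e, heT', he⟩ := hex
  have heE := hE3E e (hTE3 e (mem_filter.1 heT').1)
  obtain ⟨b, hb⟩ := hcomm e heT'
  have hs := hsize e.1 (hEp e heE)
  have h3 := shiftA f hf N e.1 e.2 hs.1 hs.2.1 α (β e) η hη0.le b hb
  have h4 := hβ2 e heE
  have h5 : A2 (FF f α) N 1 0 e.1 e.2 = A1 (FF f α) N e.1 e.2 := by
    unfold A2 A1
    simp
  rw [h5] at he
  have h6 := norm_sub_norm_le (A1 (FF f α) N e.1 e.2) (A1 (FF f α) N 1 0)
  obtain ⟨i, hi⟩ := hcov α (by rw [hη] at h3; linarith)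
  have h7 := hβ1 e heE i b
  have h8 : nd (β e - S i - b / e.1) ≤ nd (α - S i) + nd (β e - α - b / e.1) := by
    have := nd_add_le (α - S i) (β e - α - b / e.1)
    have h9 : α - S i + (β e - α - b / e.1) = β e - S i - b / e.1 := by ring
    rwa [h9] at this
  have h10 := (nd_le_abs (β e - α - b / e.1)).trans hb
  have h11 : c₁ / N ≤ c₀ / N + η / N := by linarith
  have h12 : c₀ / N + η / N = (c₀ + η) / N := by field_simp
  rw [h12, div_le_div_iff_of_pos_right hN0] at h11
  rw [hη] at h11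
  linarith

end Pool.Agent.H87.GS
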