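import Pool.Agent.H87.ES.Tools
import Pool.Agent.H91.BS.ESM

/-!
# The deterministic lemma with a threshold: the second moment
-/

set_option autoImplicit false

namespace Pool.Agent.H87.GS

open Finset Pool.Agent.H6.N4D Pool.Agent.H87.ES
open scoped ComplexConjugate

/-- The geometric series on a class. -/
lemma prog_sum (N Q r : ℕ) (hQ : 1 ≤ Q) (γ : ℝ) (h : 0 < nd (Q * γ)) :
    ‖∑ t ∈ (range N).filter (fun t => Q ∣ r + t), ee (-(γ * t))‖ ≤ 1 / (2 * nd (Q * γ)) := by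
  obtain ⟨t0, h0, hd⟩ := exists_t0 Q r hQ
  have h1 := enum N h0 hd (fun _ => True) (fun t => ee (-(γ * t)))
  simp only [and_true, Finset.filter_true] at h1
  rw [h1, ← Finset.sum_filter]
  have h2 : (range (N / Q + 1)).filter (fun k => t0 + Q * k < N) =
      range ((N - t0 + Q - 1) / Q) := by
    ext k
    simp only [mem_filter, mem_range]
    have h3 : k < (N - t0 + Q - 1) / Q ↔ t0 + Q * k < N := by
      rw [← Nat.succ_le_iff, Nat.le_div_iff_mul_le (by omega)]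
      have h4 : k.succ * Q = Q * k + Q := by
        rw [Nat.succ_mul, mul_comm]
      rw [h4]
      omega
    rw [h3]
    refine ⟨fun h => h.2, fun h => ⟨?_, h⟩⟩
    rw [Nat.lt_succ_iff, Nat.le_div_iff_mul_le (by omega)]
    rw [mul_comm]
    omega
  rw [h2]
  have h3 : ∀ k ∈ range ((N - t0 + Q - 1) / Q), ee (-(γ * ((t0 + Q * k : ℕ) : ℝ))) =
      ee (-(γ * t0)) * ee (-(Q * γ) * ((0 + k : ℕ) : ℝ)) := by
    intro k _
    rw [← ee_add]
    congr 1
    push_cast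
    ring
  rw [Finset.sum_congr rfl h3, ← Finset.mul_sum, norm_mul, norm_ee, one_mul]
  have h4 : 0 < nd (-(Q * γ)) := by rwa [nd_neg]
  have h5 := Pool.Agent.H91.BS.geo_bound (-(Q * γ)) h4 0 ((N - t0 + Q - 1) / Q)
  rwa [nd_neg] at h5

/-- The mean square of a sum. -/
lemma dual {ι : Type*} (E : Finset ι) (N : ℕ) (u : ι → ℕ → ℂ) (c : ι → ℂ)
    (hc : ∀ e ∈ E, ‖c e‖ ≤ 1) :
    ∑ t ∈ range N, ‖∑ e ∈ E, c e * u e t‖ ^ 2 ≤
      ∑ e ∈ E, ∑ d ∈ E, ‖∑ t ∈ range N, u e t * conj (u d t)‖ := by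
  have h1 : ((∑ t ∈ range N, ‖∑ e ∈ E, c e * u e t‖ ^ 2 : ℝ) : ℂ) =
      ∑ e ∈ E, ∑ d ∈ E, c e * conj (c d) * ∑ t ∈ range N, u e t * conj (u d t) := by
    push_cast
    have h2 : ∀ t ∈ range N, ((‖∑ e ∈ E, c e * u e t‖ : ℝ) : ℂ) ^ 2 =
        ∑ e ∈ E, ∑ d ∈ E, c e * conj (c d) * (u e t * conj (u d t)) := by
      intro t _
      rw [← Complex.mul_conj', map_sum, Finset.sum_mul_sum]
      refine Finset.sum_congr rfl fun e _ => Finset.sum_congr rfl fun d _ => ?_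
      rw [map_mul]
      ring
    rw [Finset.sum_congr rfl h2, Finset.sum_comm]
    refine Finset.sum_congr rfl fun e _ => ?_
    rw [Finset.sum_comm]
    refine Finset.sum_congr rfl fun d _ => ?_
    rw [Finset.mul_sum]
  have h3 : ‖((∑ t ∈ range N, ‖∑ e ∈ E, c e * u e t‖ ^ 2 : ℝ) : ℂ)‖ ≤
      ∑ e ∈ E, ∑ d ∈ E, ‖∑ t ∈ range N, u e t * conj (u d t)‖ := by
    rw [h1]
    refine (norm_sum_le _ _).trans (Finset.sum_le_sum fun e he => ?_)
    refine (norm_sum_le _ _).trans (Finset.sum_le_sum fun d hd => ?_)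
    rw [norm_mul, norm_mul, Complex.norm_conj]
    have h4 : ‖c e‖ * ‖c d‖ ≤ 1 := mul_le_one₀ (hc e he) (norm_nonneg _) (hc d hd)
    calc _ ≤ 1 * ‖∑ t ∈ range N, u e t * conj (u d t)‖ :=
          mul_le_mul_of_nonneg_right h4 (norm_nonneg _)
      _ = _ := one_mul _
  rw [Complex.norm_real] at h3
  exact (le_abs_self _).trans h3

/-- the wave of an element on its class -/
noncomputable def uu (β : ((_ : ℕ) × ℕ) → ℝ) (e : (_ : ℕ) × ℕ) (t : ℕ) : ℂ :=
  if e.1 ∣ e.2 + t then ee (-(β e * t)) else 0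

/-- the pair `e`, `d` is related -/
def Rl (N : ℕ) (A : ℝ) (β : ((_ : ℕ) × ℕ) → ℝ) (e d : (_ : ℕ) × ℕ) : Prop :=
  e.1 ≠ d.1 ∧ nd (((e.1 * d.1 : ℕ) : ℝ) * (β e - β d)) < A * ((e.1 * d.1 : ℕ) : ℝ) / N

lemma Rl_symm {N : ℕ} {A : ℝ} {β : ((_ : ℕ) × ℕ) → ℝ} {e d : (_ : ℕ) × ℕ}
    (h : Rl N A β e d) : Rl N A β d e := by
  refine ⟨fun h1 => h.1 h1.symm, ?_⟩
  have h2 := h.2
  have h3 : ((d.1 * e.1 : ℕ) : ℝ) * (β d - β e) = -(((e.1 * d.1 : ℕ) : ℝ) * (β e - β d)) := by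
    push_cast
    ring
  rw [h3, nd_neg, mul_comm d.1 e.1]
  exact h2

lemma uu_mul (β : ((_ : ℕ) × ℕ) → ℝ) (e d : (_ : ℕ) × ℕ) (t : ℕ) :
    uu β e t * conj (uu β d t) =
      if e.1 ∣ e.2 + t ∧ d.1 ∣ d.2 + t then ee (-((β e - β d) * t)) else 0 := by
  unfold uu
  by_cases h1 : e.1 ∣ e.2 + t
  · by_cases h2 : d.1 ∣ d.2 + t
    · rw [if_pos h1, if_pos h2, if_pos (And.intro h1 h2)]
      have h3 : conj (ee (-(β d * t))) = ee (β d * t) := by
        unfold ee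
        rw [← Complex.exp_conj]
        congr 1
        rw [map_mul, Complex.conj_ofReal, Complex.conj_I]
        push_cast
        ring
      rw [h3, ← ee_add]
      congr 1
      ring
    · simp [h2]
  · simp [h1]

open Classical in
/-- the bound for one pair -/
lemma pair_bound (N : ℕ) (P : Finset ℕ) (hP : ∀ p ∈ P, p.Prime) {B : ℝ}
    (hB : ∀ p ∈ P, (p : ℝ) ≤ B) (hN : B ^ 2 ≤ N) (hN0 : 0 < N) (A : ℝ) (hA : 0 < A)
    (β : ((_ : ℕ) × ℕ) → ℝ)
    (e d : (_ : ℕ) × ℕ) (he : e ∈ P.sigma (fun q => range q)) (hd : d ∈ P.sigma (fun q => range q)) :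
    ‖∑ t ∈ range N, uu β e t * conj (uu β d t)‖ ≤
      (if e = d then 2 * N * (1 / (e.1 : ℝ)) else 0) +
      N * (1 / (e.1 : ℝ)) * ((if Rl N A β e d then 2 * (1 / (d.1 : ℝ)) else 0) +
        1 / (2 * A) * (1 / (d.1 : ℝ))) := by
  simp only [mem_sigma, mem_range] at he hd
  have hpe := hP _ he.1
  have hpd := hP _ hd.1
  have he0 : (0 : ℝ) < e.1 := by exact_mod_cast hpe.pos
  have hd0 : (0 : ℝ) < d.1 := by exact_mod_cast hpd.pos
  have hN0' : (0 : ℝ) < N := by exact_mod_cast hN0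
  have hBe := hB _ he.1
  have hBd := hB _ hd.1
  have hB1 : 1 ≤ B := le_trans (by exact_mod_cast hpe.pos) hBe
  have hpos1 : 0 ≤ (if e = d then 2 * N * (1 / (e.1 : ℝ)) else 0) := by
    split_ifs <;> positivity
  have hpos2 : 0 ≤ (if Rl N A β e d then 2 * (1 / (d.1 : ℝ)) else 0) := by
    split_ifs <;> positivity
  have hpos3 : 0 ≤ N * (1 / (e.1 : ℝ)) := by positivity
  have hpos4 : 0 ≤ 1 / (2 * A) * (1 / (d.1 : ℝ)) := by positivity
  have hcong : ∑ t ∈ range N, uu β e t * conj (uu β d t) =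
      ∑ t ∈ (range N).filter (fun t => e.1 ∣ e.2 + t ∧ d.1 ∣ d.2 + t),
        ee (-((β e - β d) * t)) := by
    rw [Finset.sum_filter]
    exact Finset.sum_congr rfl fun t _ => uu_mul β e d t
  rw [hcong]
  by_cases hq : e.1 = d.1
  · by_cases hed : e = d
    · subst hed
      rw [if_pos rfl]
      have h1 : ‖∑ t ∈ (range N).filter (fun t => e.1 ∣ e.2 + t ∧ e.1 ∣ e.2 + t),
          ee (-((β e - β e) * t))‖ ≤ 2 * N * (1 / (e.1 : ℝ)) := by
        calc _ ≤ ∑ t ∈ (range N).filter (fun t => e.1 ∣ e.2 + t ∧ e.1 ∣ e.2 + t), (1 : ℝ) :=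
              norm_sum_le_of_le _ fun t _ => by rw [norm_ee]
          _ = (((range N).filter (fun t => e.1 ∣ e.2 + t)).card : ℝ) := by
              simp
          _ ≤ ((N / e.1 + 1 : ℕ) : ℝ) := by exact_mod_cast card_class N e.1 e.2 hpe.pos
          _ ≤ (N : ℝ) / e.1 + 1 := by
              push_cast
              gcongr
              exact Nat.cast_div_le
          _ ≤ (N : ℝ) / e.1 + N / e.1 := by
              gcongr
              rw [le_div_iff₀ he0, one_mul]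
              nlinarith
          _ = 2 * N * (1 / (e.1 : ℝ)) := by ring
      have h2 : 0 ≤ N * (1 / (e.1 : ℝ)) * ((if Rl N A β e e then 2 * (1 / (e.1 : ℝ)) else 0) +
        1 / (2 * A) * (1 / (e.1 : ℝ))) := by positivity
      linarith
    · have h1 : (range N).filter (fun t => e.1 ∣ e.2 + t ∧ d.1 ∣ d.2 + t) = ∅ := by
        rw [Finset.filter_eq_empty_iff]
        rintro t _ ⟨ht1, ht2⟩
        apply hed
        have h3 : e.2 ≡ d.2 [MOD e.1] := by
          have h4 : e.2 + t ≡ d.2 + t [MOD e.1] :=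
            ((Nat.modEq_zero_iff_dvd.2 ht1).trans (Nat.modEq_zero_iff_dvd.2 (hq ▸ ht2)).symm)
          exact Nat.ModEq.add_right_cancel' t h4
        have h4 : e.2 = d.2 := by
          rw [Nat.ModEq, Nat.mod_eq_of_lt he.2, Nat.mod_eq_of_lt (hq ▸ hd.2)] at h3
          exact h3
        cases e
        cases d
        simp only at hq h4
        subst hq
        subst h4
        rfl
      rw [h1, Finset.sum_empty, norm_zero]
      positivity
  · have hc : Nat.Coprime e.1 d.1 := (Nat.coprime_primes hpe hpd).2 hq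
    obtain ⟨x, hx⟩ := crt_class hc e.2 d.2
    rw [Finset.filter_congr fun t _ => hx t]
    have hQ : 1 ≤ e.1 * d.1 := Nat.mul_pos hpe.pos hpd.pos
    have hQ0 : (0 : ℝ) < (e.1 : ℝ) * d.1 := by positivity
    by_cases hR : Rl N A β e d
    · rw [if_pos hR]
      have h1 : ‖∑ t ∈ (range N).filter (fun t => e.1 * d.1 ∣ x + t),
          ee (-((β e - β d) * t))‖ ≤ N * (1 / (e.1 : ℝ)) * (2 * (1 / (d.1 : ℝ))) := by
        calc _ ≤ ∑ t ∈ (range N).filter (fun t => e.1 * d.1 ∣ x + t), (1 : ℝ) :=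
              norm_sum_le_of_le _ fun t _ => by rw [norm_ee]
          _ = (((range N).filter (fun t => e.1 * d.1 ∣ x + t)).card : ℝ) := by
              simp
          _ ≤ ((N / (e.1 * d.1) + 1 : ℕ) : ℝ) := by exact_mod_cast card_class N _ x hQ
          _ ≤ (N : ℝ) / (e.1 * d.1 : ℕ) + 1 := by
              push_cast
              gcongr
              have := Nat.cast_div_le (α := ℝ) (m := N) (n := e.1 * d.1)
              push_cast at this
              exact this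
          _ ≤ (N : ℝ) / (e.1 * d.1) + N / (e.1 * d.1) := by
              push_cast
              gcongr
              rw [le_div_iff₀ hQ0, one_mul]
              calc (e.1 : ℝ) * d.1 ≤ B * B := by gcongr
                _ = B ^ 2 := by ring
                _ ≤ N := hN
          _ = N * (1 / (e.1 : ℝ)) * (2 * (1 / (d.1 : ℝ))) := by
              field_simp
              ring
      have h2 : N * (1 / (e.1 : ℝ)) * (2 * (1 / (d.1 : ℝ))) ≤
          N * (1 / (e.1 : ℝ)) * (2 * (1 / (d.1 : ℝ)) + 1 / (2 * A) * (1 / (d.1 : ℝ))) := by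
        gcongr
        linarith
      linarith
    · rw [if_neg hR, zero_add]
      have h3 : A * ((e.1 * d.1 : ℕ) : ℝ) / N ≤ nd (((e.1 * d.1 : ℕ) : ℝ) * (β e - β d)) := by
        by_contra h4
        exact hR ⟨hq, not_le.1 h4⟩
      have h4 : 0 < A * ((e.1 * d.1 : ℕ) : ℝ) / N := by
        push_cast
        positivity
      have h5 := prog_sum N (e.1 * d.1) x hQ (β e - β d) (h4.trans_le h3)
      have h6 : 1 / (2 * nd (((e.1 * d.1 : ℕ) : ℝ) * (β e - β d))) ≤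
          1 / (2 * (A * ((e.1 * d.1 : ℕ) : ℝ) / N)) := by
        apply one_div_le_one_div_of_le
        · positivity
        · linarith
      have h7 : 1 / (2 * (A * ((e.1 * d.1 : ℕ) : ℝ) / N)) =
          N * (1 / (e.1 : ℝ)) * (1 / (2 * A) * (1 / (d.1 : ℝ))) := by
        push_cast
        field_simp
      linarith

/-- The second moment: many pairs are related. -/
lemma second (N : ℕ) (P : Finset ℕ) (hP : ∀ p ∈ P, p.Prime) {B : ℝ}
    (hB : ∀ p ∈ P, (p : ℝ) ≤ B) (hN : B ^ 2 ≤ N) (hN0 : 0 < N) (f : ℕ → ℝ)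
    (hf : ∀ t, |f t| ≤ 1) (τ : ℝ) (hτ : 0 < τ) (E : Finset ((_ : ℕ) × ℕ))
    (hE : E ⊆ P.sigma (fun q => range q)) (β : ((_ : ℕ) × ℕ) → ℝ)
    (hβ : ∀ e ∈ E, τ ≤ ‖A1 (FF f (β e)) N e.1 e.2‖) (μ : ℝ) (hμ : μ = ∑ e ∈ E, 1 / (e.1 : ℝ))
    (hμ1 : 16 / τ ^ 2 ≤ μ) [∀ e d, Decidable (Rl N (4 / τ ^ 2) β e d)] :
    τ ^ 2 / 4 * μ ^ 2 ≤ ∑ e ∈ E, 1 / (e.1 : ℝ) *
      ∑ d ∈ E.filter (fun d => Rl N (4 / τ ^ 2) β e d), 1 / (d.1 : ℝ) := by
  classical
  have hN0' : (0 : ℝ) < N := by exact_mod_cast hN0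
  choose ψ hψ using fun e : (_ : ℕ) × ℕ => exists_phase (A1 (FF f (β e)) N e.1 e.2)
  have hμ0 : 0 < μ := lt_of_lt_of_le (by positivity) hμ1
  have hprime : ∀ e ∈ E, e.1.Prime := fun e he => hP _ (mem_sigma.1 (hE he)).1
  -- the correlation
  have h1 : τ * μ * N ≤ ∑ t ∈ range N, ‖∑ e ∈ E, ee (ψ e) * uu β e t‖ := by
    have h2 : ∑ t ∈ range N, (f t : ℂ) * ∑ e ∈ E, ee (ψ e) * uu β e t =
        ∑ e ∈ E, ((N / e.1 : ℝ) : ℂ) * (ee (ψ e) * A1 (FF f (β e)) N e.1 e.2) := by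
      simp only [Finset.mul_sum]
      rw [Finset.sum_comm]
      refine Finset.sum_congr rfl fun e he => ?_
      have he0 : (e.1 : ℂ) ≠ 0 := by exact_mod_cast (hprime e he).pos.ne'
      have hN1 : (N : ℂ) ≠ 0 := by exact_mod_cast hN0.ne'
      unfold A1 FF uu
      rw [Finset.sum_filter, Finset.mul_sum, Finset.mul_sum, Finset.mul_sum]
      refine Finset.sum_congr rfl fun t _ => ?_
      push_cast
      split_ifs
      · field_simp
      · simp
    have h3 : (∑ e ∈ E, ((N / e.1 : ℝ) : ℂ) * (ee (ψ e) * A1 (FF f (β e)) N e.1 e.2)).re =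
        ∑ e ∈ E, (N / e.1 : ℝ) * ‖A1 (FF f (β e)) N e.1 e.2‖ := by
      rw [Complex.re_sum]
      refine Finset.sum_congr rfl fun e _ => ?_
      rw [Complex.re_ofReal_mul, hψ]
    have h4 : τ * μ * N ≤ ∑ e ∈ E, (N / e.1 : ℝ) * ‖A1 (FF f (β e)) N e.1 e.2‖ := by
      calc τ * μ * N = ∑ e ∈ E, (N / e.1 : ℝ) * τ := by
            rw [hμ, Finset.mul_sum, Finset.sum_mul]
            refine Finset.sum_congr rfl fun e _ => ?_
            ring
        _ ≤ _ := by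
            refine Finset.sum_le_sum fun e he => ?_
            exact mul_le_mul_of_nonneg_left (hβ e he) (by positivity)
    rw [← h3, ← h2] at h4
    refine h4.trans ((Complex.re_le_norm _).trans ?_)
    refine (norm_sum_le _ _).trans (Finset.sum_le_sum fun t _ => ?_)
    rw [norm_mul, Complex.norm_real]
    calc _ ≤ 1 * ‖∑ e ∈ E, ee (ψ e) * uu β e t‖ :=
          mul_le_mul_of_nonneg_right (hf t) (norm_nonneg _)
      _ = _ := one_mul _
  have h2 : (∑ t ∈ range N, ‖∑ e ∈ E, ee (ψ e) * uu β e t‖) ^ 2 ≤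
      N * ∑ t ∈ range N, ‖∑ e ∈ E, ee (ψ e) * uu β e t‖ ^ 2 := by
    have := sq_sum_le_card_mul_sum_sq (s := range N)
      (f := fun t => ‖∑ e ∈ E, ee (ψ e) * uu β e t‖)
    simpa using this
  have h3 := dual E N (uu β) (fun e => ee (ψ e)) (fun e _ => by rw [norm_ee])
  have h4 : ∑ e ∈ E, ∑ d ∈ E, ‖∑ t ∈ range N, uu β e t * conj (uu β d t)‖ ≤
      N * (2 * μ + τ ^ 2 / 8 * μ ^ 2 + 2 * ∑ e ∈ E, 1 / (e.1 : ℝ) *
      ∑ d ∈ E.filter (fun d => Rl N (4 / τ ^ 2) β e d), 1 / (d.1 : ℝ)) := by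
    calc ∑ e ∈ E, ∑ d ∈ E, ‖∑ t ∈ range N, uu β e t * conj (uu β d t)‖
        ≤ ∑ e ∈ E, ∑ d ∈ E, ((if e = d then 2 * N * (1 / (e.1 : ℝ)) else 0) +
          N * (1 / (e.1 : ℝ)) * ((if Rl N (4 / τ ^ 2) β e d then 2 * (1 / (d.1 : ℝ)) else 0) +
          1 / (2 * (4 / τ ^ 2)) * (1 / (d.1 : ℝ)))) := by
          refine Finset.sum_le_sum fun e he => Finset.sum_le_sum fun d hd => ?_
          refine (pair_bound N P hP hB hN hN0 (4 / τ ^ 2) (by positivity) β e d (hE he)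
            (hE hd)).trans (le_of_eq ?_)
          congr!
      _ = ∑ e ∈ E, (2 * N * (1 / (e.1 : ℝ)) + N * (1 / (e.1 : ℝ)) *
          (2 * ∑ d ∈ E.filter (fun d => Rl N (4 / τ ^ 2) β e d), 1 / (d.1 : ℝ) +
          τ ^ 2 / 8 * μ)) := by
          refine Finset.sum_congr rfl fun e he => ?_
          rw [Finset.sum_add_distrib, Finset.sum_ite_eq, if_pos he, ← Finset.mul_sum,
            Finset.sum_add_distrib, ← Finset.mul_sum, ← hμ, Finset.sum_filter, Finset.mul_sum]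
          congr 3
          · refine Finset.sum_congr rfl fun d _ => ?_
            split_ifs <;> simp
          · field_simp
            ring
      _ = _ := by
          have h5 : ∀ e ∈ E, (2 * N * (1 / (e.1 : ℝ)) + N * (1 / (e.1 : ℝ)) *
              (2 * ∑ d ∈ E.filter (fun d => Rl N (4 / τ ^ 2) β e d), 1 / (d.1 : ℝ) +
              τ ^ 2 / 8 * μ)) = (2 * N + N * (τ ^ 2 / 8 * μ)) * (1 / (e.1 : ℝ)) +
              2 * N * (1 / (e.1 : ℝ) *
              ∑ d ∈ E.filter (fun d => Rl N (4 / τ ^ 2) β e d), 1 / (d.1 : ℝ)) := by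
            intro e _
            ring
          rw [Finset.sum_congr rfl h5, Finset.sum_add_distrib, ← Finset.mul_sum,
            ← Finset.mul_sum, ← hμ]
          ring
  set S := ∑ e ∈ E, 1 / (e.1 : ℝ) *
      ∑ d ∈ E.filter (fun d => Rl N (4 / τ ^ 2) β e d), 1 / (d.1 : ℝ) with hS
  have h5 : (τ * μ * N) ^ 2 ≤ N * (N * (2 * μ + τ ^ 2 / 8 * μ ^ 2 + 2 * S)) := by
    calc (τ * μ * N) ^ 2 ≤ (∑ t ∈ range N, ‖∑ e ∈ E, ee (ψ e) * uu β e t‖) ^ 2 :=
          pow_le_pow_left₀ (by positivity) h1 2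
      _ ≤ N * ∑ t ∈ range N, ‖∑ e ∈ E, ee (ψ e) * uu β e t‖ ^ 2 := h2
      _ ≤ N * (N * (2 * μ + τ ^ 2 / 8 * μ ^ 2 + 2 * S)) := by
          gcongr
          exact h3.trans h4
  have h6 : τ ^ 2 * μ ^ 2 ≤ 2 * μ + τ ^ 2 / 8 * μ ^ 2 + 2 * S := by
    have h7 : (τ ^ 2 * μ ^ 2) * (N : ℝ) ^ 2 ≤ (2 * μ + τ ^ 2 / 8 * μ ^ 2 + 2 * S) * (N : ℝ) ^ 2 := by
      nlinarith
    exact le_of_mul_le_mul_right h7 (by positivity)
  have h7 : 2 * μ ≤ τ ^ 2 / 8 * μ ^ 2 := by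
    rw [div_le_iff₀ (by positivity)] at hμ1
    nlinarith
  nlinarith [mul_pos (pow_pos hτ 2) (pow_pos hμ0 2)]

end Pool.Agent.H87.GS
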